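import Pool.Agent.W516.K3.Defs

/-! # DK-DESC: from the complex numbers to the real numbers -/

set_option autoImplicit false

namespace Pool.Agent.W613.DK

open Module TensorProduct Pool.Agent.W516.K3

section

variable (k T : Type) [Field k] [Algebra k ℝ] [Algebra k ℂ] [IsScalarTower k ℝ ℂ]
    [AddCommGroup T] [Module k T]

/-- real part -/
noncomputable def Rp : ℂ ⊗[k] T →ₗ[k] ℝ ⊗[k] T :=
  LinearMap.rTensor T (Complex.reLm.restrictScalars k)

theorem Rp_tmul (z : ℂ) (t : T) : Rp k T (z ⊗ₜ[k] t) = z.re ⊗ₜ[k] t := rfl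

/-- the complexification -/
noncomputable def ce : ℂ ⊗[ℝ] (ℝ ⊗[k] T) ≃ₗ[ℂ] ℂ ⊗[k] T :=
  AlgebraTensorModule.cancelBaseChange k ℝ ℂ ℂ T

theorem ce_tmul (z : ℂ) (r : ℝ) (t : T) :
    ce k T (z ⊗ₜ[ℝ] (r ⊗ₜ[k] t)) = (r • z) ⊗ₜ[k] t := by
  unfold ce
  rw [AlgebraTensorModule.cancelBaseChange_tmul]

theorem Rp_ce (c : ℂ) (v : ℝ ⊗[k] T) : Rp k T (c • ce k T (1 ⊗ₜ[ℝ] v)) = c.re • v := by
  induction v using TensorProduct.induction_on with
  | zero => simp
  | add a b ha hb => rw [TensorProduct.tmul_add, map_add, smul_add, map_add, ha, hb, smul_add]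
  | tmul r t =>
    rw [ce_tmul, TensorProduct.smul_tmul', Rp_tmul, TensorProduct.smul_tmul']
    congr 1
    simp

theorem Rp_ce1 (v : ℝ ⊗[k] T) : Rp k T (ce k T (1 ⊗ₜ[ℝ] v)) = v := by
  have := Rp_ce k T 1 v
  rwa [one_smul, Complex.one_re, one_smul] at this

theorem Rp_bc (x : Module.End k T) (w : ℂ ⊗[k] T) :
    Rp k T (x.baseChange ℂ w) = x.baseChange ℝ (Rp k T w) := by
  induction w using TensorProduct.induction_on with
  | zero => simp
  | add a b ha hb => simp only [map_add, ha, hb]
  | tmul z t => simp [Rp_tmul]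

theorem ce_bc (x : Module.End k T) (w : ℂ ⊗[ℝ] (ℝ ⊗[k] T)) :
    ce k T ((x.baseChange ℝ).baseChange ℂ w) = x.baseChange ℂ (ce k T w) := by
  induction w using TensorProduct.induction_on with
  | zero => simp
  | add a b ha hb => simp only [map_add, ha, hb]
  | tmul z v =>
    induction v using TensorProduct.induction_on with
    | zero => simp
    | add a b ha hb => simp only [TensorProduct.tmul_add, map_add, ha, hb]
    | tmul r t => simp [ce_tmul]

end

theorem T_DESC : S_DESC := by
  intro k T _ _ _ _ _ _ _ S hS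
  constructor
  · intro U hU
    let U' : Submodule ℂ (ℂ ⊗[k] T) :=
      { carrier := {w | ∀ c : ℂ, Rp k T (c • w) ∈ U}
        zero_mem' := fun c => by simp
        add_mem' := fun {a b} ha hb c => by
          rw [smul_add, map_add]
          exact U.add_mem (ha c) (hb c)
        smul_mem' := fun a w hw c => by
          rw [smul_smul]
          exact hw (c * a) }
    have hmem : ∀ w, w ∈ U' ↔ ∀ c : ℂ, Rp k T (c • w) ∈ U := fun w => Iff.rfl
    rcases hS U' (fun x hx w hw => by
      rw [hmem] at hw ⊢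
      intro c
      rw [← map_smul, Rp_bc]
      exact hU x hx _ (hw c)) with h | h
    · left
      rw [Submodule.eq_bot_iff]
      intro u hu
      have h1 : ce k T (1 ⊗ₜ[ℝ] u) ∈ U' := by
        rw [hmem]
        intro c
        rw [Rp_ce]
        exact U.smul_mem _ hu
      rw [h, Submodule.mem_bot] at h1
      have h2 := Rp_ce1 k T u
      rw [h1, map_zero] at h2
      exact h2.symm
    · right
      rw [Submodule.eq_top_iff']
      intro v
      have h1 : ce k T (1 ⊗ₜ[ℝ] v) ∈ U' := by
        rw [h]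
        exact Submodule.mem_top
      have h2 := (hmem _).1 h1 1
      rwa [one_smul, Rp_ce1] at h2
  · intro P hP
    rcases subsingleton_or_nontrivial (ℝ ⊗[k] T) with hs | hs
    · exact ⟨0, LinearMap.ext fun v => Subsingleton.elim _ _⟩
    · have hnt : Nontrivial (ℂ ⊗[k] T) := by
        obtain ⟨v, hv⟩ := exists_ne (0 : ℝ ⊗[k] T)
        refine ⟨ce k T (1 ⊗ₜ[ℝ] v), 0, fun h => hv ?_⟩
        rw [← Rp_ce1 k T v, h, map_zero]
      let P' : Module.End ℂ (ℂ ⊗[k] T) :=
        (ce k T).toLinearMap ∘ₗ (P.baseChange ℂ) ∘ₗ (ce k T).symm.toLinearMap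
      have hP' : ∀ w, P' (ce k T w) = ce k T (P.baseChange ℂ w) := fun w => by simp [P']
      have hcomm : ∀ x ∈ S, ∀ w, x.baseChange ℂ (P' w) = P' (x.baseChange ℂ w) := by
        intro x hx w
        obtain ⟨w, rfl⟩ := (ce k T).surjective w
        rw [hP', ← ce_bc, ← ce_bc, hP']
        congr 1
        have h1 := congrArg (fun f : Module.End ℝ (ℝ ⊗[k] T) => f.baseChange ℂ w) (hP x hx)
        simp only [Module.End.mul_eq_comp, LinearMap.baseChange_comp, LinearMap.comp_apply] at h1
        exact h1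
      obtain ⟨μ, hμ⟩ := Module.End.exists_eigenvalue P'
      have hstab : Module.End.eigenspace P' μ = ⊤ := by
        rcases hS (Module.End.eigenspace P' μ) (fun x hx w hw => by
          rw [Module.End.mem_eigenspace_iff] at hw ⊢
          rw [← hcomm x hx, hw, map_smul]) with h | h
        · exact absurd h hμ
        · exact h
      refine ⟨μ.re, LinearMap.ext fun v => ?_⟩
      have h1 : ce k T (1 ⊗ₜ[ℝ] v) ∈ Module.End.eigenspace P' μ := by
        rw [hstab]
        exact Submodule.mem_top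
      rw [Module.End.mem_eigenspace_iff, hP', LinearMap.baseChange_tmul] at h1
      have h2 := congrArg (Rp k T) h1
      rw [Rp_ce1, Rp_ce] at h2
      rw [h2]
      simp

end Pool.Agent.W613.DK
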